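import Pool.Agent.K3h88.Erde.Stm2

/-!
# The algebra of the groups `D s` and the places `A s`
-/

set_option autoImplicit false

namespace Pool.Agent.K3h48.Erde

open Pool.Agent.K3h88.Erde

section

variable {m a : ℕ} (G : GD m a) {L : ℕ}

theorem char2 {a : ℕ} (v : Fin a → ZMod 2) : v + v = 0 := by
  funext i
  show v i + v i = 0
  exact CharTwo.add_self_eq_zero _

theorem chi_add (h2 : 2 ∣ L) (y z : Fin m → ZMod L) :
    G.chi L (y + z) = G.chi L y + G.chi L z := by
  unfold GD.chi
  rw [← Finset.sum_add_distrib]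
  refine Finset.sum_congr rfl fun l _ => ?_
  rw [← add_smul, ← ZMod.cast_add h2]
  rfl

theorem chi_ev (h2 : 2 ∣ L) (l : ℕ) (hl : l < m) : G.chi L (ev m L l) = G.c l := by
  unfold GD.chi
  rw [Finset.sum_eq_single (⟨l, hl⟩ : Fin m)]
  · unfold ev
    simp only [if_true]
    rw [ZMod.cast_one h2, one_smul]
  · intro b _ hb
    have : ¬ ((b : ℕ) = l) := fun h => hb (Fin.ext h)
    unfold ev
    rw [if_neg this, ZMod.cast_zero, zero_smul]
  · intro h
    exact absurd (Finset.mem_univ _) h

/-- `chi` as a homomorphism -/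
noncomputable def chiH (h2 : 2 ∣ L) : (Fin m → ZMod L) →+ (Fin a → ZMod 2) :=
  AddMonoidHom.mk' (G.chi L) (chi_add G h2)

theorem chiH_apply (h2 : 2 ∣ L) (y : Fin m → ZMod L) : chiH G h2 y = G.chi L y := rfl

theorem c_single (l : ℕ) (hl : l + 1 < m) : G.c l = Pi.single (G.κ l) 1 := by
  unfold GD.c
  rw [if_pos hl, G.bstep l hl, ← add_assoc, char2, zero_add]

theorem smul_mem [NeZero L] (D : AddSubgroup (Fin m → ZMod L)) (c : ZMod L) {w : Fin m → ZMod L}
    (hw : w ∈ D) : c • w ∈ D := by
  have : c • w = c.val • w := by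
    funext i
    show c * w i = c.val • w i
    rw [nsmul_eq_mul, ZMod.natCast_zmod_val]
  rw [this]
  exact D.nsmul_mem hw _

theorem st_mem (s : ℕ) : st m L m ∈ G.D L s :=
  AddSubgroup.subset_closure (Or.inl rfl)

theorem ww_mem (s i : ℕ) (hi : i < s) : G.ww L i ∈ G.D L s :=
  AddSubgroup.subset_closure (Or.inr ⟨i, hi, rfl⟩)

theorem D_mono (s : ℕ) : G.D L s ≤ G.D L (s + 1) := by
  apply AddSubgroup.closure_mono
  apply Set.union_subset_union_right
  rintro w ⟨i, hi, rfl⟩
  exact ⟨i, by omega, rfl⟩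

theorem D_succ (s : ℕ) (w : Fin m → ZMod L) (hw : w ∈ G.D L (s + 1)) :
    ∃ w' ∈ G.D L s, ∃ c : ZMod L, w = w' + c • G.ww L s := by
  have h1 : G.D L (s + 1) ≤ G.D L s ⊔ AddSubgroup.zmultiples (G.ww L s) := by
    unfold GD.D
    rw [AddSubgroup.closure_le]
    rintro x (hx | ⟨i, hi, rfl⟩)
    · exact AddSubgroup.mem_sup_left (AddSubgroup.subset_closure (Or.inl hx))
    · by_cases h : i < s
      · exact AddSubgroup.mem_sup_left (AddSubgroup.subset_closure (Or.inr ⟨i, h, rfl⟩))
      · have : i = s := by omega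
        subst this
        exact AddSubgroup.mem_sup_right (AddSubgroup.mem_zmultiples _)
  obtain ⟨w', hw', z, hz, rfl⟩ := AddSubgroup.mem_sup.mp (h1 hw)
  obtain ⟨n, rfl⟩ := AddSubgroup.mem_zmultiples_iff.mp hz
  refine ⟨w', hw', (n : ZMod L), ?_⟩
  congr 1
  funext i
  show n • G.ww L s i = (n : ZMod L) * G.ww L s i
  rw [zsmul_eq_mul]

/-- the value of `ww` away from its support -/
theorem ww_low (s : ℕ) (i : Fin m) (hi : (i : ℕ) < s) : G.ww L s i = 0 := by
  have h1 : ¬ ((i : ℕ) = s) := by omega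
  have h3 := G.nxlt s
  have h2 : ¬ ((i : ℕ) = G.nx s) := by omega
  unfold GD.ww
  split_ifs
  · show ev m L s i - ev m L (G.nx s) i = 0
    unfold ev
    rw [if_neg h1, if_neg h2, sub_zero]
  · show ev m L s i + ev m L s i = 0
    unfold ev
    rw [if_neg h1, add_zero]

theorem ww_last (s : ℕ) (hs : s + 1 < m) (i : Fin m) (hi : (i : ℕ) = m - 1) :
    G.ww L s i = 0 := by
  have h1 : ¬ ((i : ℕ) = s) := by omega
  unfold GD.ww
  split_ifs with h
  · have h2 : ¬ ((i : ℕ) = G.nx s) := by omega
    show ev m L s i - ev m L (G.nx s) i = 0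
    unfold ev
    rw [if_neg h1, if_neg h2, sub_zero]
  · show ev m L s i + ev m L s i = 0
    unfold ev
    rw [if_neg h1, add_zero]

theorem ww_s1 (s : ℕ) (hn : G.nx s + 1 < m) (i : Fin m) (hi : (i : ℕ) = s) :
    G.ww L s i = 1 := by
  have h3 := G.nxlt s
  have h2 : ¬ ((i : ℕ) = G.nx s) := by omega
  unfold GD.ww
  rw [if_pos hn]
  show ev m L s i - ev m L (G.nx s) i = 1
  unfold ev
  rw [if_pos hi, if_neg h2, sub_zero]

theorem ww_s2 (s : ℕ) (hn : ¬ G.nx s + 1 < m) : G.ww L s = ev m L s + ev m L s := by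
  unfold GD.ww
  rw [if_neg hn]

/-- the normal form -/
def Nrm (v : ZMod L) (s : ℕ) (z : Fin m → ZMod L) : Prop :=
  (∀ i : Fin m, (i : ℕ) = m - 1 → z i = v) ∧
    ∀ i : Fin m, (i : ℕ) < s → (G.nx i + 1 < m → z i = 0) ∧
      (¬ G.nx i + 1 < m → z i = 0 ∨ z i = 1)

theorem norm_gen [NeZero L] (v : ZMod L) (y : Fin m → ZMod L) (s : ℕ) (hs : s + 1 ≤ m) :
    ∃ d ∈ G.D L s, Nrm G v s (y + d) := by
  induction s with
  | zero =>
    have hm : m - 1 < m := by omega
    refine ⟨(v - y ⟨m - 1, hm⟩) • st m L m, smul_mem _ _ (st_mem G 0), ?_, ?_⟩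
    · intro i hi
      have : i = ⟨m - 1, hm⟩ := Fin.ext hi
      subst this
      show y _ + (v - y _) * st m L m _ = v
      unfold st
      rw [if_pos hm, mul_one]
      ring
    · intro i hi
      exact absurd hi (Nat.not_lt_zero _)
  | succ s ih =>
    obtain ⟨d, hd, h1, h2⟩ := ih (by omega)
    have hsm : s < m := by omega
    set z : Fin m → ZMod L := y + d with hz
    have key : ∀ c : ZMod L, (G.nx s + 1 < m → z ⟨s, hsm⟩ + c * G.ww L s ⟨s, hsm⟩ = 0) →
        (¬ G.nx s + 1 < m → z ⟨s, hsm⟩ + c * G.ww L s ⟨s, hsm⟩ = 0 ∨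
          z ⟨s, hsm⟩ + c * G.ww L s ⟨s, hsm⟩ = 1) →
        ∃ d ∈ G.D L (s + 1), Nrm G v (s + 1) (y + d) := by
      intro c h3 h4
      refine ⟨d + c • G.ww L s, AddSubgroup.add_mem _ (D_mono G s hd)
        (smul_mem _ _ (ww_mem G (s + 1) s (by omega))), ?_, ?_⟩
      · intro i hi
        rw [← add_assoc, ← hz]
        show z i + c * G.ww L s i = v
        rw [ww_last G s (by omega) i hi, mul_zero, add_zero]
        exact h1 i hi
      · intro i hi
        rw [← add_assoc, ← hz]
        show (_ → z i + c * G.ww L s i = 0) ∧ (_ → z i + c * G.ww L s i = 0 ∨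
          z i + c * G.ww L s i = 1)
        by_cases his : (i : ℕ) = s
        · have : i = ⟨s, hsm⟩ := Fin.ext his
          subst this
          exact ⟨h3, h4⟩
        · rw [ww_low G s i (by omega), mul_zero, add_zero]
          exact h2 i (by omega)
    by_cases hn : G.nx s + 1 < m
    · apply key (- z ⟨s, hsm⟩)
      · intro _
        rw [ww_s1 G s hn _ rfl]
        ring
      · intro h
        exact absurd hn h
    · have hw : G.ww L s ⟨s, hsm⟩ = 2 := by
        rw [ww_s2 G s hn]
        show ev m L s _ + ev m L s _ = 2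
        unfold ev
        rw [if_pos rfl]
        norm_num
      apply key (- (((z ⟨s, hsm⟩).val / 2 : ℕ) : ZMod L))
      · intro h
        exact absurd h hn
      · intro _
        rw [hw]
        have h5 : z ⟨s, hsm⟩ = (((z ⟨s, hsm⟩).val % 2 : ℕ) : ZMod L) +
            2 * (((z ⟨s, hsm⟩).val / 2 : ℕ) : ZMod L) := by
          conv_lhs => rw [← ZMod.natCast_zmod_val (z ⟨s, hsm⟩),
            ← Nat.mod_add_div (z ⟨s, hsm⟩).val 2]
          push_cast
          ring
        have h6 : z ⟨s, hsm⟩ + - (((z ⟨s, hsm⟩).val / 2 : ℕ) : ZMod L) * 2 =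
            (((z ⟨s, hsm⟩).val % 2 : ℕ) : ZMod L) := by
          linear_combination h5
        rw [h6]
        rcases Nat.mod_two_eq_zero_or_one (z ⟨s, hsm⟩).val with h | h
        · left; rw [h]; exact Nat.cast_zero
        · right; rw [h]; exact Nat.cast_one

theorem A_iff (s : ℕ) (z : Fin m → ZMod L) : G.A L s z ↔ Nrm G (G.vv L s) s z := Iff.rfl

theorem zero_of_mem (h2 : 2 ∣ L) [NeZero L] (s : ℕ) (hs : s + 1 ≤ m) : ∀ w ∈ G.D L s,
    (∀ i : Fin m, (i : ℕ) = m - 1 → w i = 0) →
    (∀ i : Fin m, (i : ℕ) < s → (G.nx i + 1 < m → w i = 0) ∧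
      (¬ G.nx i + 1 < m → w i = 0 ∨ w i = 1 ∨ w i = -1)) → w = 0 := by
  induction s with
  | zero =>
    intro w hw h1 _
    have h3 : G.D L 0 ≤ AddSubgroup.zmultiples (st m L m) := by
      unfold GD.D
      rw [AddSubgroup.closure_le]
      rintro x (hx | ⟨i, hi, _⟩)
      · change x = st m L m at hx
        rw [hx]
        exact AddSubgroup.mem_zmultiples _
      · exact absurd hi (Nat.not_lt_zero _)
    obtain ⟨n, rfl⟩ := AddSubgroup.mem_zmultiples_iff.mp (h3 hw)
    have hm : m - 1 < m := by omega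
    have h4 := h1 ⟨m - 1, hm⟩ rfl
    have h5 : ∀ i : Fin m, (n • st m L m) i = (n : ZMod L) := by
      intro i
      show n • (st m L m i) = _
      unfold st
      rw [if_pos i.isLt, zsmul_eq_mul, mul_one]
    rw [h5] at h4
    funext i
    rw [h5, h4]
    rfl
  | succ s ih =>
    intro w hw h1 h3
    obtain ⟨w', hw', c, rfl⟩ := D_succ G s w hw
    have hsm : s < m := by omega
    have h4 : w' = 0 := by
      apply ih (by omega) w' hw'
      · intro i hi
        have := h1 i hi
        have h5 : (w' + c • G.ww L s) i = w' i + c * G.ww L s i := rfl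
        rw [h5, ww_last G s (by omega) i hi, mul_zero, add_zero] at this
        exact this
      · intro i hi
        have := h3 i (by omega)
        have h5 : (w' + c • G.ww L s) i = w' i + c * G.ww L s i := rfl
        rw [h5, ww_low G s i hi, mul_zero, add_zero] at this
        exact this
    subst h4
    rw [zero_add] at h3 ⊢
    have h5 : (c • G.ww L s) ⟨s, hsm⟩ = c * G.ww L s ⟨s, hsm⟩ := rfl
    have h6 := h3 ⟨s, hsm⟩ (Nat.lt_succ_self s)
    rw [h5] at h6
    by_cases hn : G.nx s + 1 < m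
    · have h7 := h6.1 hn
      rw [ww_s1 G s hn _ rfl, mul_one] at h7
      rw [h7, zero_smul]
    · have hw : G.ww L s ⟨s, hsm⟩ = 2 := by
        rw [ww_s2 G s hn]
        show ev m L s _ + ev m L s _ = 2
        unfold ev
        rw [if_pos rfl]
        norm_num
      have h7 := h6.2 hn
      rw [hw] at h7
      have h8 : ((c * 2 : ZMod L).cast : ZMod 2) = 0 := by
        rw [ZMod.cast_mul h2]
        have : ((2 : ZMod L).cast : ZMod 2) = 0 := by
          have h9 : (2 : ZMod L) = ((2 : ℕ) : ZMod L) := by norm_num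
          rw [h9, ZMod.cast_natCast h2]
          rfl
        rw [this, mul_zero]
      have h10 : c * 2 = 0 := by
        rcases h7 with h | h | h
        · exact h
        · rw [h, ZMod.cast_one h2] at h8
          exact absurd h8 (by decide)
        · rw [h, ZMod.cast_neg h2, ZMod.cast_one h2] at h8
          exact absurd h8 (by decide)
      rw [ww_s2 G s hn]
      funext i
      show c * (ev m L s i + ev m L s i) = 0
      have : c * (ev m L s i + ev m L s i) = (c * 2) * ev m L s i := by ring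
      rw [this, h10, zero_mul]

theorem uniq (h2 : 2 ∣ L) [NeZero L] (s : ℕ) (hs : s + 1 < m) (y z : Fin m → ZMod L)
    (hy : G.A L s y) (hz : G.A L s z) (h : y - z ∈ G.D L s) : y = z := by
  rw [← sub_eq_zero]
  apply zero_of_mem G h2 s (by omega) _ h
  · intro i hi
    show y i - z i = 0
    rw [hy.1 i hi, hz.1 i hi, sub_self]
  · intro i hi
    obtain ⟨a1, a2⟩ := hy.2 i hi
    obtain ⟨b1, b2⟩ := hz.2 i hi
    refine ⟨fun hn => ?_, fun hn => ?_⟩
    · show y i - z i = 0
      rw [a1 hn, b1 hn, sub_self]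
    · show y i - z i = 0 ∨ y i - z i = 1 ∨ y i - z i = -1
      rcases a2 hn with h | h <;> rcases b2 hn with h' | h' <;> rw [h, h'] <;> simp

theorem chi_st (h2 : 2 ∣ L) (hm : 3 ≤ m) : G.chi L (st m L m) = 0 := by
  have h3 : ∀ k, k + 1 ≤ m → ∑ l ∈ Finset.range k, G.c l = G.b k := by
    intro k
    induction k with
    | zero =>
      intro _
      rw [Finset.sum_range_zero, G.b0]
    | succ k ih =>
      intro hk
      rw [Finset.sum_range_succ, ih (by omega)]
      unfold GD.c
      rw [if_pos (by omega), ← add_assoc, char2, zero_add]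
  have h4 : G.chi L (st m L m) = ∑ l : Fin m, G.c l := by
    unfold GD.chi
    refine Finset.sum_congr rfl fun l _ => ?_
    unfold st
    rw [if_pos l.isLt, ZMod.cast_one h2, one_smul]
  rw [h4, Finset.sum_fin_eq_sum_range]
  have h5 : ∑ i ∈ Finset.range m, (if h : i < m then G.c ((⟨i, h⟩ : Fin m) : ℕ) else 0) =
      ∑ i ∈ Finset.range m, G.c i := by
    refine Finset.sum_congr rfl fun i hi => ?_
    rw [dif_pos (Finset.mem_range.mp hi)]
  rw [h5]
  obtain ⟨k, rfl⟩ : ∃ k, m = k + 1 := ⟨m - 1, by omega⟩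
  rw [Finset.sum_range_succ, h3 k (le_refl _)]
  unfold GD.c
  rw [if_neg (by omega), char2]

theorem le_ker (h2 : 2 ∣ L) (s : ℕ) (hs : s + 1 ≤ m) (y : Fin m → ZMod L)
    (hy : y ∈ G.D L s) : G.chi L y = 0 := by
  have h3 : G.D L s ≤ (chiH G h2).ker := by
    unfold GD.D
    rw [AddSubgroup.closure_le]
    rintro x (hx | ⟨i, hi, rfl⟩)
    · change x = st m L m at hx
      rw [hx]
      exact chi_st G h2 G.hm
    · show chiH G h2 (G.ww L i) = 0
      unfold GD.ww
      split_ifs with hn
      · have h5 := G.nxlt i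
        rw [map_sub, chiH_apply, chiH_apply, chi_ev G h2 i (by omega), chi_ev G h2 _ (by omega),
          c_single G i (by omega), c_single G _ hn, G.nxk i hn, sub_self]
      · rw [map_add, char2]
  exact h3 hy

theorem nx_of_eq (i j : ℕ) (hij : i < j) (hj : j + 1 < m) (hk : G.κ i = G.κ j) :
    G.nx i + 1 < m := by
  by_contra hn
  exact G.nxmin j i hij (by omega) hk.symm

theorem ker (h2 : 2 ∣ L) [NeZero L] (y : Fin m → ZMod L) (hy : G.chi L y = 0) :
    y ∈ G.D L (m - 1) := by
  have hm := G.hm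
  obtain ⟨d, hd, h3, h4⟩ := norm_gen G 0 y (m - 1) (by omega)
  have h5 : G.chi L (y + d) = 0 := by
    rw [chi_add G h2, hy, le_ker G h2 (m - 1) (by omega) d hd, add_zero]
  have h6 : y + d = 0 := by
    set z := y + d with hz
    funext i
    show z i = 0
    by_contra hi
    have hi1 : (i : ℕ) < m - 1 := by
      by_contra h
      have := i.isLt
      exact hi (h3 i (by omega))
    obtain ⟨h7, h8⟩ := h4 i hi1
    have hn : ¬ G.nx i + 1 < m := fun h => hi (h7 h)
    have hz1 : z i = 1 := (h8 hn).resolve_left hi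
    have h9 := congrFun h5 (G.κ i)
    unfold GD.chi at h9
    rw [Finset.sum_apply, Finset.sum_eq_single i] at h9
    · rw [hz1, ZMod.cast_one h2, one_smul, c_single G i (by omega), Pi.single_eq_same] at h9
      exact absurd h9 (one_ne_zero (α := ZMod 2))
    · intro l _ hl
      by_cases hl1 : (l : ℕ) = m - 1
      · rw [h3 l hl1, ZMod.cast_zero, zero_smul]
        rfl
      · have hl2 : (l : ℕ) < m - 1 := by
          have := l.isLt
          omega
        obtain ⟨g7, g8⟩ := h4 l hl2
        by_cases hln : G.nx l + 1 < m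
        · rw [g7 hln, ZMod.cast_zero, zero_smul]
          rfl
        · have hκ : G.κ l ≠ G.κ i := by
            intro hk
            rcases lt_trichotomy (l : ℕ) (i : ℕ) with h | h | h
            · exact hln (nx_of_eq G l i h (by omega) hk)
            · exact hl (Fin.ext h)
            · exact hn (nx_of_eq G i l h (by omega) hk.symm)
          rw [c_single G l (by omega)]
          show (ZMod.cast (z l) : ZMod 2) * (Pi.single (G.κ l) 1 : Fin a → ZMod 2) (G.κ i) = 0
          rw [Pi.single_eq_of_ne (Ne.symm hκ), mul_zero]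
    · intro h
      exact absurd (Finset.mem_univ _) h
  have : y = - d := eq_neg_of_add_eq_zero_left h6
  rw [this]
  exact AddSubgroup.neg_mem _ hd

theorem surj (h2 : 2 ∣ L) [NeZero L] (δ : Fin a → ZMod 2) (t : ZMod L) :
    ∃ y : Fin m → ZMod L, (∀ i : Fin m, (i : ℕ) = m - 1 → y i = t) ∧ G.chi L y = δ := by
  have hm := G.hm
  choose j hj hκ using G.ksurj
  set γ := δ - G.chi L (t • ev m L (m - 1)) with hγ
  refine ⟨t • ev m L (m - 1) + ∑ x : Fin a, (if γ x = 1 then ev m L (j x) else 0), ?_, ?_⟩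
  · intro i hi
    rw [Pi.add_apply, Finset.sum_apply]
    have h3 : (t • ev m L (m - 1)) i = t := by
      show t * ev m L (m - 1) i = t
      unfold ev
      rw [if_pos hi, mul_one]
    rw [h3, Finset.sum_eq_zero, add_zero]
    intro x _
    have := hj x
    split_ifs
    · unfold ev
      rw [if_neg (by omega)]
    · rfl
  · rw [chi_add G h2]
    have h3 : G.chi L (∑ x : Fin a, (if γ x = 1 then ev m L (j x) else 0)) = γ := by
      rw [← chiH_apply G h2, map_sum]
      have h4 : ∀ x ∈ (Finset.univ : Finset (Fin a)),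
          chiH G h2 (if γ x = 1 then ev m L (j x) else 0) = Pi.single x (γ x) := by
        intro x _
        have := hj x
        split_ifs with h
        · rw [chiH_apply, chi_ev G h2 _ (by omega), c_single G _ this, hκ, h]
        · have h5 : γ x = 0 := by
            have h6 : ∀ u : ZMod 2, u ≠ 1 → u = 0 := by decide
            exact h6 _ h
          rw [h5, map_zero, Pi.single_zero]
      rw [Finset.sum_congr rfl h4]
      exact Finset.univ_sum_single γ
    rw [h3, hγ]
    abel

theorem count (h2 : 2 ∣ L) [NeZero L] (t : ℕ) (δ : Fin a → ZMod 2) (hL : L = 4 ^ t) :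
    Nat.card {y : Fin m → ZMod L // G.chi L y = δ} = 2 ^ (2 * m * t - a) := by
  have h3 : Function.Surjective (chiH G h2) := by
    intro δ'
    obtain ⟨y, _, hy⟩ := surj G h2 δ' 0
    exact ⟨y, hy⟩
  obtain ⟨y0, hy0⟩ := h3 δ
  have e : {y : Fin m → ZMod L // G.chi L y = δ} ≃ (chiH G h2).ker :=
    { toFun := fun y => ⟨y.1 - y0, by
        show chiH G h2 (y.1 - y0) = 0
        rw [map_sub, hy0, chiH_apply, y.2, sub_self]⟩
      invFun := fun y => ⟨y.1 + y0, by
        have := y.2
        rw [AddMonoidHom.mem_ker] at this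
        rw [← chiH_apply G h2, map_add, hy0, this, zero_add]⟩
      left_inv := fun y => by
        apply Subtype.ext
        show y.1 - y0 + y0 = y.1
        abel
      right_inv := fun y => by
        apply Subtype.ext
        show y.1 + y0 - y0 = y.1
        abel }
  rw [Nat.card_congr e]
  have h4 := AddSubgroup.card_mul_index (chiH G h2).ker
  rw [AddSubgroup.index_ker, AddMonoidHom.range_eq_top.mpr h3, AddSubgroup.card_top] at h4
  have h5 : Nat.card (Fin a → ZMod 2) = 2 ^ a := by
    rw [Nat.card_eq_fintype_card, Fintype.card_fun, ZMod.card, Fintype.card_fin]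
  have h6 : Nat.card (Fin m → ZMod L) = 2 ^ (2 * m * t) := by
    have : Nat.card (Fin m → ZMod L) = L ^ m := by
      rw [Nat.card_fun, Nat.card_zmod, Nat.card_fin]
    rw [this, hL, ← pow_mul, show (4 : ℕ) = 2 ^ 2 from rfl, ← pow_mul]
    congr 1
    ring
  rw [h5, h6] at h4
  have h7 : a ≤ 2 * m * t := by
    have : 2 ^ a ∣ 2 ^ (2 * m * t) := ⟨_, by rw [← h4, mul_comm]⟩
    exact (Nat.pow_dvd_pow_iff_le_right (by norm_num)).mp this
  apply Nat.eq_of_mul_eq_mul_right (pow_pos (by norm_num : 0 < 2) a)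
  rw [h4, ← pow_add, Nat.sub_add_cancel h7]

end

theorem alg : StmAlg := by
  intro m a G L hL h2
  have : NeZero L := ⟨by omega⟩
  exact {
    chi_add := chi_add G h2
    chi_ev := chi_ev G h2
    norm := fun s hs y => norm_gen G (G.vv L s) y s (by omega)
    uniq := fun s hs y z hy hz h => uniq G h2 s hs y z hy hz h
    ker := ker G h2
    le_ker := le_ker G h2
    surj := surj G h2
    count := fun t δ ht => count G h2 t δ ht }

end Pool.Agent.K3h48.Erde
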