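import Pool.Agent.K3h48.Erde.Data

/-!
# A Hamiltonian decomposition of the cube of dimension ten
-/

set_option autoImplicit false

namespace Pool.Agent.K3h48.Erde

open Pool.Agent.K3h88.Erde

theorem vt_lt (i j : ℕ) : vt i j < 1024 := Nat.mod_lt _ (by norm_num)

theorem ps_lt (i j : ℕ) : ps i j < 1024 := Nat.mod_lt _ (by norm_num)

theorem vt_mod (i j : ℕ) : vt i (j % 1024) = vt i j := by
  unfold vt
  have : Nat.mod (j % 1024) 1024 = Nat.mod j 1024 := Nat.mod_mod j 1024
  rw [this]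

theorem A_all (i x : ℕ) (hi : i < 5) (hx : x < 1024) : vt i (ps i x) = x := by
  have h : all2 (chA i) 10 0 = true := by
    interval_cases i
    · exact okA0
    · exact okA1
    · exact okA2
    · exact okA3
    · exact okA4
  have h2 := all2_spec _ 10 0 h x (Nat.zero_le _) (by simpa using hx)
  exact Nat.eq_of_beq_eq_true h2

theorem B_all (i j : ℕ) (hi : i < 5) (hj : j < 1024) : dr i j < 10 ∧
    fl (vt i j) (dr i j) = vt i (j + 1) ∧ cl (vt i j) (dr i j) = i ∧
    cl (vt i (j + 1)) (dr i j) = i := by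
  have h : all2 (chB i) 10 0 = true := by
    interval_cases i
    · exact okB0
    · exact okB1
    · exact okB2
    · exact okB3
    · exact okB4
  have h2 := all2_spec _ 10 0 h j (Nat.zero_le _) (by simpa using hj)
  unfold chB at h2
  rw [Bool.and_eq_true, Bool.and_eq_true, Bool.and_eq_true] at h2
  obtain ⟨h3, h4, h5, h6⟩ := h2
  exact ⟨Nat.lt_succ_of_le (Nat.le_of_ble_eq_true h3), Nat.eq_of_beq_eq_true h4,
    Nat.eq_of_beq_eq_true h5, Nat.eq_of_beq_eq_true h6⟩

theorem C_all (d x : ℕ) (hd : d < 10) (hx : x < 1024) : cl x d < 5 ∧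
    (vt (cl x d) (ps (cl x d) x + 1) = fl x d ∨ vt (cl x d) (ps (cl x d) x + 1023) = fl x d) := by
  have h : all2 (chC d) 10 0 = true := by
    interval_cases d
    · exact okC0
    · exact okC1
    · exact okC2
    · exact okC3
    · exact okC4
    · exact okC5
    · exact okC6
    · exact okC7
    · exact okC8
    · exact okC9
  have h2 := all2_spec _ 10 0 h x (Nat.zero_le _) (by simpa using hx)
  unfold chC at h2
  rw [Bool.and_eq_true, Bool.or_eq_true] at h2
  obtain ⟨h3, h4⟩ := h2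
  refine ⟨Nat.lt_succ_of_le (Nat.le_of_ble_eq_true h3), ?_⟩
  rcases h4 with h4 | h4
  · exact Or.inl (Nat.eq_of_beq_eq_true h4)
  · exact Or.inr (Nat.eq_of_beq_eq_true h4)

/-- the vertex of the cube with the number `x` -/
def gv (x : ℕ) : Fin 10 → Bool := fun t => x.testBit t

theorem gv_inj {x y : ℕ} (hx : x < 1024) (hy : y < 1024) (h : gv x = gv y) : x = y := by
  apply Nat.eq_of_testBit_eq
  intro i
  by_cases hi : i < 10
  · exact congrFun h ⟨i, hi⟩
  · have h1 : (1024 : ℕ) ≤ 2 ^ i := by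
      have : (2 : ℕ) ^ 10 ≤ 2 ^ i := Nat.pow_le_pow_right (by norm_num) (by omega)
      simpa using this
    rw [Nat.testBit_lt_two_pow (lt_of_lt_of_le hx h1), Nat.testBit_lt_two_pow (lt_of_lt_of_le hy h1)]

theorem gv_surj (z : Fin 10 → Bool) : ∃ x, x < 1024 ∧ gv x = z := by
  refine ⟨Nat.ofBits z, by simpa using Nat.ofBits_lt_two_pow z, ?_⟩
  funext t
  unfold gv
  rw [Nat.testBit_ofBits_lt z t.val t.isLt]

theorem fl_eq (x d : ℕ) : fl x d = x ^^^ (1 <<< d) := rfl

theorem gv_fl (x : ℕ) (d : Fin 10) : gv (fl x d) = Function.update (gv x) d (!gv x d) := by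
  funext t
  unfold gv
  rw [fl_eq, Nat.testBit_xor, Nat.one_shiftLeft]
  by_cases h : t = d
  · subst h
    rw [Nat.testBit_two_pow_self]
    simp
  · rw [Function.update_of_ne h]
    have : ¬ ((d : ℕ) = t) := fun hh => h (Fin.ext hh.symm)
    rw [Nat.testBit_two_pow_of_ne this]
    simp

theorem fl_inj {x d e : ℕ} (h : fl x d = fl x e) : d = e := by
  rw [fl_eq, fl_eq] at h
  have h2 := Nat.xor_right_injective h
  rw [Nat.one_shiftLeft, Nat.one_shiftLeft] at h2
  exact Nat.pow_right_injective (le_refl 2) h2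

theorem fl_fl (x d : ℕ) : fl (fl x d) d = x := by
  rw [fl_eq, fl_eq, Nat.xor_assoc, Nat.xor_self, Nat.xor_zero]

theorem fl_lt (x d : ℕ) (hx : x < 1024) (hd : d < 10) : fl x d < 1024 := by
  have : (1024 : ℕ) = 2 ^ 10 := by norm_num
  rw [fl_eq, this]
  apply Nat.xor_lt_two_pow
  · simpa using hx
  · rw [Nat.one_shiftLeft]
    exact Nat.pow_lt_pow_right (by norm_num) hd

theorem vt_inj (i : ℕ) (hi : i < 5) : Set.InjOn (vt i) (Set.Iio 1024) := by
  have hs : Function.Surjective (fun j : Fin 1024 => (⟨vt i j, vt_lt i j⟩ : Fin 1024)) := by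
    intro x
    refine ⟨⟨ps i x, ps_lt i x⟩, ?_⟩
    apply Fin.ext
    exact A_all i x hi x.isLt
  have hj := Finite.injective_iff_surjective.mpr hs
  intro a ha b hb hab
  have := @hj ⟨a, ha⟩ ⟨b, hb⟩ (Fin.ext hab)
  exact congrArg Fin.val this

theorem h5 : StmH5 := by
  refine ⟨fun i => pE (fun j => gv (vt i j)) 1024, ?_, ?_, ?_⟩
  · intro i
    refine ⟨1024, fun j => gv (vt i j), ⟨by norm_num, ?_, ?_⟩, ?_, rfl⟩
    · show gv (vt i 1024) = gv (vt i 0)
      rw [← vt_mod i 1024]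
    · intro a ha b hb hab
      exact vt_inj i i.isLt ha hb (gv_inj (vt_lt _ _) (vt_lt _ _) hab)
    · intro z
      obtain ⟨x, hx, rfl⟩ := gv_surj z
      exact ⟨ps i x, ps_lt i x, by show gv (vt i (ps i x)) = gv x; rw [A_all i x i.isLt hx]⟩
  · intro i i' hii
    rw [Set.disjoint_left]
    rintro e ⟨j, hj, rfl⟩ ⟨j', hj', he⟩
    apply hii
    obtain ⟨b1, b2, b3, b4⟩ := B_all i j i.isLt hj
    obtain ⟨c1, c2, c3, c4⟩ := B_all i' j' i'.isLt hj'
    rw [Sym2.eq_iff] at he
    rcases he with ⟨e1, e2⟩ | ⟨e1, e2⟩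
    · have e1' := gv_inj (vt_lt _ _) (vt_lt _ _) e1
      have e2' := gv_inj (vt_lt _ _) (vt_lt _ _) e2
      have hd : dr i j = dr i' j' := by
        apply fl_inj (x := vt i j)
        rw [b2, e2', ← c2, e1']
      apply Fin.ext
      rw [← b3, ← c3, hd, e1']
    · have e1' := gv_inj (vt_lt _ _) (vt_lt _ _) e1
      have e2' := gv_inj (vt_lt _ _) (vt_lt _ _) e2
      have hd : dr i j = dr i' j' := by
        apply fl_inj (x := vt i j)
        rw [b2, e2', e1', ← c2, fl_fl]
      apply Fin.ext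
      rw [← b3, ← c4, hd, e1']
  · apply Set.Subset.antisymm
    · rintro e ⟨z, t, rfl⟩
      obtain ⟨x, hx, rfl⟩ := gv_surj z
      obtain ⟨h1, h2⟩ := C_all t x t.isLt hx
      rw [Set.mem_iUnion]
      refine ⟨⟨cl x t, h1⟩, ?_⟩
      show _ ∈ pE (fun j => gv (vt (cl x t) j)) 1024
      rw [← gv_fl]
      have ha := A_all (cl x t) x h1 hx
      rcases h2 with h2 | h2
      · refine ⟨ps (cl x t) x, ps_lt _ _, ?_⟩
        show _ = s(gv (vt (cl x t) (ps (cl x t) x)), gv (vt (cl x t) (ps (cl x t) x + 1)))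
        rw [h2, ha]
      · refine ⟨(ps (cl x t) x + 1023) % 1024, Nat.mod_lt _ (by norm_num), ?_⟩
        show _ = s(gv (vt (cl x t) ((ps (cl x t) x + 1023) % 1024)),
          gv (vt (cl x t) ((ps (cl x t) x + 1023) % 1024 + 1)))
        rw [vt_mod, h2, ← vt_mod _ (_ + 1)]
        have hp := ps_lt (cl x t) x
        have : ((ps (cl x t) x + 1023) % 1024 + 1) % 1024 = ps (cl x t) x := by omega
        rw [this, ha, Sym2.eq_swap]
    · intro e he
      rw [Set.mem_iUnion] at he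
      obtain ⟨i, j, hj, rfl⟩ := he
      obtain ⟨b1, b2, b3, b4⟩ := B_all i j i.isLt hj
      refine ⟨gv (vt i j), ⟨dr i j, b1⟩, ?_⟩
      show s(gv (vt i j), gv (vt i (j + 1))) = _
      rw [← gv_fl, ← b2]

end Pool.Agent.K3h48.Erde
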